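import Mathlib
import Pool.Agent.H38R3.TPDefs
import Pool.Agent.TH770.PP.PosMain
import Pool.Agent.TH770.PP.NegMain

/-!
# The least cardinal in the class `ℙ` (MP_ebc4cb_lc, Q2)
-/

namespace Pool.Agent.Results.MP_ebc4cb_lc.MinPathCardinal

open Cardinal Ordinal Set Pool.H38R3.TransPath Pool.Agent.TH770.PP

universe u

/-- `ℵ_{ω₂} ∈ ℙ`, and every `κ ∈ ℙ` below `ℵ_{ω₂}` is at least `ℵ_{ω₁+1}`, is the successor of a
singular cardinal of cofinality `ℵ₁`, and is a cardinal all of whose stationary subsets reflect;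
moreover for every sequence of pairwise disjoint stationary subsets of `κ` and every nonprincipal
ultrafilter `𝒰` on `ℕ` there is a point at which `𝒰`-many members of the sequence reflect
simultaneously. -/
theorem result :
    ℵ_ (ω_ 2) ∈ PathCardinals.{u} ∧
    ∀ κ ∈ PathCardinals.{u}, κ < ℵ_ (ω_ 2) →
      ℵ_ (ω_ 1 + 1) ≤ κ ∧
      (∃ μ : Cardinal.{u}, κ = Order.succ μ ∧ ℵ_ 1 < μ ∧ μ.ord.cof = ℵ_ 1) ∧
      (∀ S : Set κ.ord.ToType, IsStationary S →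
        ∃ δ : κ.ord.ToType, ℵ₀ < Order.cof (Iio δ) ∧
          IsStationary ((Subtype.val : Iio δ → κ.ord.ToType) ⁻¹' S)) ∧
      (∀ T : ℕ → Set κ.ord.ToType, (∀ n, IsStationary (T n)) →
        (∀ m n, m ≠ n → Disjoint (T m) (T n)) →
        ∀ 𝒰 : Ultrafilter ℕ, (𝒰 : Filter ℕ) ≤ Filter.cofinite →
          ∃ δ : κ.ord.ToType, ℵ₀ < Order.cof (Iio δ) ∧
            {n | IsStationary ((Subtype.val : Iio δ → κ.ord.ToType) ⁻¹' (T n))} ∈ 𝒰) := by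
  refine ⟨aleph_omega_two_mem, fun κ hκ hlt => ?_⟩
  obtain ⟨h1, μ, rfl, h2, h3⟩ := lower_bound hκ hlt
  have hμ : ℵ₀ ≤ μ := (Cardinal.aleph0_le_aleph 1).trans h2.le
  exact ⟨h1, ⟨μ, rfl, h2, h3⟩, (succ_mem hμ hκ).2.2,
    fun T hT hd 𝒰 h𝒰 => regular_mem hκ (isRegular_succ hμ) T hT hd 𝒰 h𝒰⟩

end Pool.Agent.Results.MP_ebc4cb_lc.MinPathCardinal
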